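import Pool.Agent.L0h26.CK.Stm

/-! # BAL: removing the imbalance -/

set_option autoImplicit false

namespace Pool.Agent.L0h91.JB

open Finset Pool.Agent.Helper91.CK Pool.Agent.L0h26.CK

section
variable {V : Type} [Fintype V] [DecidableEq V]

/-- the signs after the flip of `x` (for `σ x = 1`) -/
def flp (σ : V → ℤ) (x : V) : V → ℤ := fun y => σ y - 2 * (if y = x then 1 else 0)

theorem flp_sg {σ : V → ℤ} (hσ : Sg σ) {x : V} (hx : σ x = 1) : Sg (flp σ x) := by
  intro y
  unfold flp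
  by_cases h : y = x
  · rw [if_pos h, h, hx]; right; norm_num
  · rw [if_neg h]
    rcases hσ y with h1 | h1 <;> rw [h1] <;> norm_num

theorem flp_sum (σ : V → ℤ) (x : V) (f : V → ℤ) :
    ∑ y, flp σ x y * f y = ∑ y, σ y * f y - 2 * f x := by
  have h1 : ∀ y, flp σ x y * f y = σ y * f y - 2 * (if y = x then f y else 0) := by
    intro y
    unfold flp
    split_ifs <;> ring
  rw [Finset.sum_congr rfl fun y _ => h1 y, Finset.sum_sub_distrib, ← Finset.mul_sum,
    Finset.sum_ite_eq' univ x f, if_pos (Finset.mem_univ x)]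

theorem F_eq (W : V → V → ℤ) (σ : V → ℤ) :
    F W univ σ = -∑ x, σ x * ∑ y, σ y * W x y := by
  unfold F
  congr 1
  refine Finset.sum_congr rfl fun x _ => ?_
  rw [Finset.mul_sum]
  refine Finset.sum_congr rfl fun y _ => ?_
  ring

theorem flp_F (W : V → V → ℤ) (hs : ∀ x y, W x y = W y x) (h0 : ∀ x, W x x = 0) (σ : V → ℤ)
    (x : V) : F W univ (flp σ x) = F W univ σ + 4 * ∑ y, σ y * W x y := by
  rw [F_eq, F_eq, flp_sum σ x (fun u => ∑ y, flp σ x y * W u y)]
  have h1 : ∀ u, ∑ y, flp σ x y * W u y = ∑ y, σ y * W u y - 2 * W u x := fun u =>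
    flp_sum σ x (fun y => W u y)
  rw [h1 x, h0 x]
  have h2 : ∑ y, σ y * ∑ z, flp σ x z * W y z =
      ∑ y, σ y * ∑ z, σ z * W y z - 2 * ∑ y, σ y * W x y := by
    rw [Finset.mul_sum, ← Finset.sum_sub_distrib]
    refine Finset.sum_congr rfl fun y _ => ?_
    rw [h1 y, hs y x]
    ring
  rw [h2]
  ring

end

/-- **BAL** -/
theorem t_BAL : S_BAL := by
  intro V _ _ W hs h0 h3 d j
  induction j with
  | zero =>
    intro σ hσ hsum
    refine ⟨σ, hσ, by simpa using hsum, le_of_eq ?_⟩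
    push_cast
    ring
  | succ i ih =>
    intro σ hσ hsum
    push_cast at hsum ⊢
    obtain ⟨r, hr⟩ : ∃ r : ℤ, r = (Fintype.card V : ℤ) := ⟨_, rfl⟩
    have h3' : 3 ≤ r := by rw [hr]; exact_mod_cast h3
    rw [← hr]
    obtain ⟨Fv, hF⟩ : ∃ t : ℤ, t = F W univ σ := ⟨_, rfl⟩
    obtain ⟨P, hP⟩ : ∃ t : ℤ, t = ∑ y, σ y * ∑ x, W y x := ⟨_, rfl⟩
    obtain ⟨ρ, hρ⟩ : ∃ t : ℤ, t = ∑ y, ∑ x, W y x := ⟨_, rfl⟩
    rw [← hF, ← hP, ← hρ]
    obtain ⟨D, hD⟩ : ∃ t : ℤ, t = (d : ℤ) := ⟨_, rfl⟩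
    obtain ⟨I, hI⟩ : ∃ t : ℤ, t = (i : ℤ) := ⟨_, rfl⟩
    have hD0 : 0 ≤ D := by rw [hD]; exact Int.natCast_nonneg d
    have hI0 : 0 ≤ I := by rw [hI]; exact Int.natCast_nonneg i
    rw [← hD, ← hI] at hsum
    rw [← hD, ← hI]
    -- the value after the flip of `x`
    obtain ⟨g, hg⟩ : ∃ g : V → ℤ, g = fun x => ∑ y, σ y * W x y := ⟨_, rfl⟩
    obtain ⟨ρ', hρ'⟩ : ∃ g : V → ℤ, g = fun x => ∑ y, W x y := ⟨_, rfl⟩
    set Ψ : V → ℤ := fun x => (r + D) * (r + D - 2) * (Fv + 4 * g x) +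
      2 * I * (2 * (r + D) * (P - 2 * ρ' x) - (2 * I - 2) * ρ) with hΨ
    have hstep : ∀ x, σ x = 1 → ∃ σ' : V → ℤ, Sg σ' ∧ ∑ v, σ' v = D ∧
        Ψ x ≤ (r + D + 2 * I) * (r + D + 2 * I - 2) * F W univ σ' := by
      intro x hx
      have e1 : ∑ v, flp σ x v = D + 2 * I := by
        have := flp_sum σ x (fun _ => 1)
        simp only [mul_one] at this
        rw [this, hsum]
        ring
      obtain ⟨σ', h1, h2, h4⟩ := ih (flp σ x) (flp_sg hσ hx) (by rw [e1, hD, hI])
      refine ⟨σ', h1, by rw [h2, hD], ?_⟩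
      rw [flp_F W hs h0, flp_sum σ x (fun y => ∑ z, W y z), ← hr, ← hD, ← hI, ← hF, ← hP, ← hρ] at h4
      rw [hΨ, hg, hρ']
      exact h4
    -- the sums over the positive part
    have hsig : ∀ f : V → ℤ, 2 * ∑ x ∈ univ.filter (fun x => σ x = 1), f x =
        ∑ x, (1 + σ x) * f x := by
      intro f
      rw [Finset.sum_filter, Finset.mul_sum]
      refine Finset.sum_congr rfl fun x _ => ?_
      rcases hσ x with h1 | h1
      · rw [if_pos h1, h1]; ring
      · rw [if_neg (by rw [h1]; norm_num), h1]; ring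
    have s1 : ∑ x, (1 + σ x) = r + D + 2 * (I + 1) := by
      rw [Finset.sum_add_distrib, hsum, Finset.sum_const, Finset.card_univ, hr]
      simp
      ring
    have s2 : ∑ x, (1 + σ x) * g x = P - Fv := by
      have e1 : ∀ x, (1 + σ x) * g x = g x + σ x * g x := fun x => by ring
      rw [Finset.sum_congr rfl fun x _ => e1 x, Finset.sum_add_distrib, hF, F_eq, hP, hg]
      have e2 : ∑ x, ∑ y, σ y * W x y = ∑ y, σ y * ∑ x, W y x := by
        rw [Finset.sum_comm]
        refine Finset.sum_congr rfl fun y _ => ?_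
        rw [Finset.mul_sum]
        refine Finset.sum_congr rfl fun x _ => ?_
        rw [hs]
      rw [e2]
      ring
    have s3 : ∑ x, (1 + σ x) * ρ' x = ρ + P := by
      have e1 : ∀ x, (1 + σ x) * ρ' x = ρ' x + σ x * ρ' x := fun x => by ring
      rw [Finset.sum_congr rfl fun x _ => e1 x, Finset.sum_add_distrib, hρ, hP, hρ']
    have hcard : 2 * ((univ.filter (fun x => σ x = 1)).card : ℤ) = r + D + 2 * (I + 1) := by
      rw [← s1]
      have := hsig (fun _ => 1)
      simpa using this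
    have htot : 2 * ∑ x ∈ univ.filter (fun x => σ x = 1), Ψ x =
        (r + D + 2 * (I + 1) - 4) * ((r + D) * (r + D - 2) * Fv +
          2 * (I + 1) * (2 * (r + D) * P - (2 * (I + 1) - 2) * ρ)) := by
      rw [hsig]
      have e1 : ∀ x, (1 + σ x) * Ψ x = ((r + D) * (r + D - 2) * Fv +
          2 * I * (2 * (r + D) * P - (2 * I - 2) * ρ)) * (1 + σ x) +
          4 * ((r + D) * (r + D - 2)) * ((1 + σ x) * g x) -
          2 * I * (4 * (r + D)) * ((1 + σ x) * ρ' x) := by
        intro x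
        rw [hΨ]
        ring
      rw [Finset.sum_congr rfl fun x _ => e1 x, Finset.sum_sub_distrib, Finset.sum_add_distrib,
        ← Finset.mul_sum, ← Finset.mul_sum, ← Finset.mul_sum, s1, s2, s3]
      ring
    set T : ℤ := (r + D) * (r + D - 2) * Fv +
          2 * (I + 1) * (2 * (r + D) * P - (2 * (I + 1) - 2) * ρ) with hT
    have hs4 : 0 < r + D + 2 * (I + 1) - 4 := by linarith
    have hspos : 0 < r + D + 2 * (I + 1) := by linarith
    obtain ⟨x, hx, hle⟩ : ∃ x, σ x = 1 ∧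
        (r + D + 2 * (I + 1) - 4) * T ≤ (r + D + 2 * (I + 1)) * Ψ x := by
      by_contra hc
      push Not at hc
      have hne : (univ.filter (fun x => σ x = 1)).Nonempty := by
        rw [Finset.nonempty_iff_ne_empty]
        intro he
        rw [he, Finset.card_empty] at hcard
        push_cast at hcard
        linarith
      have h5 : ∑ x ∈ univ.filter (fun x => σ x = 1), (r + D + 2 * (I + 1)) * Ψ x <
          ∑ x ∈ univ.filter (fun x => σ x = 1), (r + D + 2 * (I + 1) - 4) * T := by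
        apply Finset.sum_lt_sum_of_nonempty hne
        intro x hx
        rw [Finset.mem_filter] at hx
        exact hc x hx.2
      rw [← Finset.mul_sum, Finset.sum_const, nsmul_eq_mul] at h5
      have h6 : (r + D + 2 * (I + 1)) * (2 * ∑ x ∈ univ.filter (fun x => σ x = 1), Ψ x) <
          (2 * ((univ.filter (fun x => σ x = 1)).card : ℤ)) *
            ((r + D + 2 * (I + 1) - 4) * T) := by linarith
      rw [htot, hcard] at h6
      exact absurd h6 (lt_irrefl _)
    obtain ⟨σ', h1, h2, h4⟩ := hstep x hx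
    refine ⟨σ', h1, h2, ?_⟩
    have h5 : (r + D + 2 * (I + 1) - 4) * T ≤ (r + D + 2 * (I + 1) - 4) *
        ((r + D + 2 * (I + 1)) * (r + D + 2 * (I + 1) - 2) * F W univ σ') := by
      calc (r + D + 2 * (I + 1) - 4) * T ≤ (r + D + 2 * (I + 1)) * Ψ x := hle
        _ ≤ (r + D + 2 * (I + 1)) *
            ((r + D + 2 * I) * (r + D + 2 * I - 2) * F W univ σ') :=
          mul_le_mul_of_nonneg_left h4 hspos.le
        _ = _ := by ring
    have h6 := le_of_mul_le_mul_left h5 hs4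
    exact h6

end Pool.Agent.L0h91.JB
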