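import Pool.Agent.L0h26.CK.Stm

/-! # RB: the balanced theorem for the rest -/

set_option autoImplicit false

namespace Pool.Agent.L0h91.JB

open Finset Pool.Agent.Helper91.CK Pool.Agent.L0h26.CK

/-- the quadratic inequality -/
theorem quad_ineq {r D X z : ℝ} (hr : 6 ≤ r) (hD : 2 ≤ D) :
    (r + D) * (r + D - 2) * (X * z - z ^ 2) ≤
      X * (r * (r - 2) * z + X * (D * (D + 2))) := by
  have hs : 0 < (r + D) * (r + D - 2) := mul_pos (by linarith) (by linarith)
  have h1 : 0 ≤ X ^ 2 * (D * (8 * r ^ 2 + r * (4 * D ^ 2 + 16 * D - 16) +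
      D * (D - 2) * (3 * D + 10))) := by
    apply mul_nonneg (sq_nonneg X)
    apply mul_nonneg (by linarith)
    have e1 : 0 ≤ r * (4 * D ^ 2 + 16 * D - 16) := by
      apply mul_nonneg (by linarith)
      nlinarith
    have e2 : 0 ≤ D * (D - 2) * (3 * D + 10) :=
      mul_nonneg (mul_nonneg (by linarith) (by linarith)) (by linarith)
    have e3 : 0 ≤ 8 * r ^ 2 := by positivity
    linarith
  have h2 : 0 ≤ 4 * ((r + D) * (r + D - 2)) *
      (X * (r * (r - 2) * z + X * (D * (D + 2))) - (r + D) * (r + D - 2) * (X * z - z ^ 2)) := by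
    have e : 4 * ((r + D) * (r + D - 2)) *
      (X * (r * (r - 2) * z + X * (D * (D + 2))) - (r + D) * (r + D - 2) * (X * z - z ^ 2)) =
      (2 * ((r + D) * (r + D - 2)) * z - X * D * (2 * r + D - 2)) ^ 2 +
      X ^ 2 * (D * (8 * r ^ 2 + r * (4 * D ^ 2 + 16 * D - 16) + D * (D - 2) * (3 * D + 10))) := by
      ring
    rw [e]
    have := sq_nonneg (2 * ((r + D) * (r + D - 2)) * z - X * D * (2 * r + D - 2))
    linarith
  have h3 : 0 ≤ X * (r * (r - 2) * z + X * (D * (D + 2))) -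
      (r + D) * (r + D - 2) * (X * z - z ^ 2) :=
    nonneg_of_mul_nonneg_right h2 (by linarith)
  linarith

/-- the second case: the numbers -/
theorem case2 {r D k A Δ F F' P : ℝ} (hr : 6 ≤ r) (hD : 2 ≤ D) (hk : 1000 ≤ k) (hA : 0 ≤ A)
    (hΔ1 : A ≤ Δ) (hΔ2 : Δ ≤ 2 * A) (hAr : A ≤ 4 * r) (hP : k * D - Δ ≤ P)
    (hRP : (30 * (k + 1) + 125) * r ≤ 30 * (k + 1) * F + 4 * (k + 1) * A)
    (hBAL : r * (r - 2) * F + D * (2 * r * P - (D - 2) * (k * r - Δ)) ≤
      (r + D) * (r + D - 2) * F') :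
    (3 * (k + 1) + 8) * r ≤ 3 * (k + 1) * F' + (k + 1) * A := by
  have hK : (0 : ℝ) < k + 1 := by linarith
  obtain ⟨u, hu⟩ : ∃ u : ℝ, u = r / (k + 1) := ⟨_, rfl⟩
  have hu1 : (k + 1) * u = r := by rw [hu]; field_simp
  have hu0 : 0 < u := by rw [hu]; positivity
  have hs : 0 < (r + D) * (r + D - 2) := mul_pos (by linarith) (by linarith)
  have hX : 0 < k * r := mul_pos (by linarith) (by linarith)
  -- the lower bound of `F + Δ`
  obtain ⟨z, hz⟩ : ∃ z : ℝ, z = r + 25 / 6 * u - 2 / 15 * A + Δ := ⟨_, rfl⟩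
  have hzF : z ≤ F + Δ := by
    have h1 : 30 * (k + 1) * (r + 25 / 6 * u - 2 / 15 * A) ≤ 30 * (k + 1) * F := by
      have : 30 * (k + 1) * (r + 25 / 6 * u - 2 / 15 * A) =
          30 * (k + 1) * r + 125 * ((k + 1) * u) - 4 * (k + 1) * A := by ring
      rw [this, hu1]
      linarith
    have h2 := le_of_mul_le_mul_left h1 (by positivity)
    rw [hz]
    linarith
  have hz0 : 0 ≤ z := by rw [hz]; linarith
  -- the balanced value
  have h1 : r * (r - 2) * z + k * r * (D * (D + 2)) ≤ (r + D) * (r + D - 2) * (F' + Δ) := by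
    have e1 : D * (2 * r * (k * D - Δ) - (D - 2) * (k * r - Δ)) ≤
        D * (2 * r * P - (D - 2) * (k * r - Δ)) := by
      apply mul_le_mul_of_nonneg_left _ (by linarith)
      have := mul_le_mul_of_nonneg_left hP (show (0 : ℝ) ≤ 2 * r by linarith)
      linarith
    have e2 : r * (r - 2) * z ≤ r * (r - 2) * (F + Δ) :=
      mul_le_mul_of_nonneg_left hzF (mul_nonneg (by linarith) (by linarith))
    have e3 : 0 ≤ 2 * D * (D - 2) * Δ :=
      mul_nonneg (mul_nonneg (by linarith) (by linarith)) (by linarith)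
    have e4 : r * (r - 2) * (F + Δ) + k * r * (D * (D + 2)) + 2 * D * (D - 2) * Δ =
        r * (r - 2) * F + D * (2 * r * (k * D - Δ) - (D - 2) * (k * r - Δ)) +
        (r + D) * (r + D - 2) * Δ := by ring
    have e5 : (r + D) * (r + D - 2) * (F' + Δ) = (r + D) * (r + D - 2) * F' +
      (r + D) * (r + D - 2) * Δ := by ring
    rw [e5]
    linarith
  have h2 := quad_ineq (X := k * r) (z := z) hr hD
  have h3 : (r + D) * (r + D - 2) * (k * r * z - z ^ 2) ≤
      (r + D) * (r + D - 2) * (k * r * (F' + Δ)) := by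
    have := mul_le_mul_of_nonneg_left h1 hX.le
    linarith
  have h4 : k * r * z - z ^ 2 ≤ k * r * (F' + Δ) := le_of_mul_le_mul_left h3 hs
  -- the bound of `z ^ 2`
  have hu2 : u ≤ r / 1000 := by
    have : 1000 * u ≤ (k + 1) * u := mul_le_mul_of_nonneg_right (by linarith) hu0.le
    rw [hu1] at this
    linarith
  have hz1 : z ≤ r * (1 + 1 / 200) + 28 / 15 * A := by
    rw [hz]
    linarith
  have h5 : z ^ 2 ≤ (r * (1 + 1 / 200) + 28 / 15 * A) ^ 2 := pow_le_pow_left₀ hz0 hz1 2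
  have h6 : (r * (1 + 1 / 200) + 28 / 15 * A) ^ 2 ≤ k * r * (3 / 2 * u + A / 5) := by
    have e1 : k * u = r - u := by
      have : (k + 1) * u = k * u + u := by ring
      linarith
    have e2 : k * r * (3 / 2 * u + A / 5) = 3 / 2 * r * (k * u) + k * (r * A) / 5 := by ring
    rw [e2, e1]
    have e3 : 0 ≤ r * A := mul_nonneg (by linarith) hA
    have e4 : 1000 * (r * A) ≤ k * (r * A) := mul_le_mul_of_nonneg_right hk e3
    have e5 : r * u ≤ r * (r / 1000) := mul_le_mul_of_nonneg_left hu2 (by linarith)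
    have e6 : A * A ≤ 4 * r * A := mul_le_mul_of_nonneg_right hAr hA
    have e7 : 0 ≤ r * r := by positivity
    nlinarith
  have h7 : k * r * (z - (3 / 2 * u + A / 5)) ≤ k * r * (F' + Δ) := by
    have : k * r * (z - (3 / 2 * u + A / 5)) = k * r * z - k * r * (3 / 2 * u + A / 5) := by ring
    rw [this]
    linarith
  have h8 : z - (3 / 2 * u + A / 5) ≤ F' + Δ := le_of_mul_le_mul_left h7 hX
  have h9 : r + 8 / 3 * u - A / 3 ≤ F' := by
    rw [hz] at h8
    linarith
  have h10 : 3 * (k + 1) * (r + 8 / 3 * u - A / 3) ≤ 3 * (k + 1) * F' :=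
    mul_le_mul_of_nonneg_left h9 (by positivity)
  have h11 : 3 * (k + 1) * (r + 8 / 3 * u - A / 3) =
      3 * (k + 1) * r + 8 * ((k + 1) * u) - (k + 1) * A := by ring
  rw [h11, hu1] at h10
  linarith

/-- the first case: the numbers -/
theorem case1 {r k A Δ F' : ℤ} (hr : 6 ≤ r) (hre : Even r) (hk : 1000 ≤ k) (hA : 0 ≤ A)
    (hΔ2 : Δ ≤ 2 * A) (hAr : 4 * r < A) (hAk : A ≤ k * r)
    (hBAL : k * r - Δ ≤ (r - 1) * F') :
    (3 * (k + 1) + 8) * r ≤ 3 * (k + 1) * F' + (k + 1) * A := by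
  have h1 : 3 * (k + 1) * (k * r - 2 * A) ≤ 3 * (k + 1) * ((r - 1) * F') :=
    mul_le_mul_of_nonneg_left (by linarith) (by linarith)
  have hgoal : (r - 1) * ((3 * (k + 1) + 8) * r) ≤
      (r - 1) * (3 * (k + 1) * F' + (k + 1) * A) := by
    have e1 : (r - 1) * (3 * (k + 1) * F' + (k + 1) * A) =
        3 * (k + 1) * ((r - 1) * F') + (k + 1) * (r - 1) * A := by ring
    rw [e1]
    have hcase : r = 6 ∨ 8 ≤ r := by
      obtain ⟨m, hm⟩ := hre
      omega
    rcases hcase with h6 | h8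
    · subst h6
      nlinarith
    · have e2 : (k + 1) * (r - 7) * (4 * r) ≤ (k + 1) * (r - 7) * A := by
        apply mul_le_mul_of_nonneg_left hAr.le
        apply mul_nonneg <;> linarith
      have e3 : 0 ≤ r * (3 * (k + 1) * k - 25 * (k + 1) + 8 + ((k + 1) - 8) * r) := by
        apply mul_nonneg (by linarith)
        nlinarith
      nlinarith
  exact le_of_mul_le_mul_left hgoal (by linarith)

section
variable {V : Type} [Fintype V] [DecidableEq V]

theorem F_neg (W : V → V → ℤ) (σ : V → ℤ) : F W univ (fun v => -σ v) = F W univ σ := by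
  unfold F
  congr 1
  refine Finset.sum_congr rfl fun x _ => Finset.sum_congr rfl fun y _ => ?_
  ring

/-- the sum of the signs has the parity of the number of the vertices -/
theorem sum_even {σ : V → ℤ} (hσ : Sg σ) (hev : Even (Fintype.card V)) : Even (∑ v, σ v) := by
  have h1 : ∑ v, (σ v + 1) = ∑ v, σ v + (Fintype.card V : ℤ) := by
    rw [Finset.sum_add_distrib, Finset.sum_const, Finset.card_univ]
    simp
  have h2 : Even (∑ v, (σ v + 1)) := by
    apply Finset.even_sum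
    intro v _
    rcases hσ v with h | h <;> rw [h] <;> decide
  rw [h1] at h2
  have h3 : Even (Fintype.card V : ℤ) := by exact_mod_cast hev
  exact (Int.even_add.1 h2).2 h3

end

/-- **RB** -/
theorem t_RB : S_RB := by
  intro hB hR2 V _ _ k H _ a h hk hR hev h6
  have hs := Wt_symm hR
  have h0 := Wt_self hR
  obtain ⟨W, hW⟩ : ∃ W : V → V → ℤ, W = Wt H h := ⟨_, rfl⟩
  rw [← hW] at hs h0
  obtain ⟨dd, hdd⟩ : ∃ dd : V → ℤ, dd = fun y => (a y : ℤ) + ∑ x, (h y x : ℤ) := ⟨_, rfl⟩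
  have hρ : ∀ y, ∑ x, W y x = (k : ℤ) - dd y := by
    intro y
    rw [hW, hdd]
    unfold Wt
    rw [Finset.sum_sub_distrib]
    have e1 : ∑ x, (if H.Adj y x then (1 : ℤ) else 0) =
        ((univ.filter (fun x => H.Adj y x)).card : ℤ) := by
      rw [Finset.sum_ite]
      simp
    rw [e1]
    have := hR.hdeg y
    have e2 : ((univ.filter (fun x => H.Adj y x)).card : ℤ) + a y = k := by exact_mod_cast this
    linarith
  have hd1 : ∀ y, (a y : ℤ) ≤ dd y := by
    intro y
    rw [hdd]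
    have : (0 : ℤ) ≤ ∑ x, (h y x : ℤ) := Finset.sum_nonneg fun x _ => Int.natCast_nonneg _
    show (a y : ℤ) ≤ (a y : ℤ) + ∑ x, (h y x : ℤ)
    linarith
  have hd2 : ∀ y, dd y ≤ 2 * (a y : ℤ) := by
    intro y
    rw [hdd]
    have : ∑ x, (h y x : ℤ) ≤ a y := by exact_mod_cast hR.hsum y
    show (a y : ℤ) + ∑ x, (h y x : ℤ) ≤ 2 * (a y : ℤ)
    linarith
  have hak : ∀ y, (a y : ℤ) ≤ k := by
    intro y
    have := hR.hdeg y
    have h1 : a y ≤ k := by omega
    exact_mod_cast h1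
  obtain ⟨A, hA⟩ : ∃ A : ℤ, A = ∑ x, (a x : ℤ) := ⟨_, rfl⟩
  obtain ⟨Δ, hΔ⟩ : ∃ Δ : ℤ, Δ = ∑ x, dd x := ⟨_, rfl⟩
  obtain ⟨r, hr⟩ : ∃ r : ℤ, r = (Fintype.card V : ℤ) := ⟨_, rfl⟩
  have hA0 : 0 ≤ A := by rw [hA]; exact Finset.sum_nonneg fun x _ => Int.natCast_nonneg _
  have hΔ1 : A ≤ Δ := by rw [hA, hΔ]; exact Finset.sum_le_sum fun x _ => hd1 x
  have hΔ2 : Δ ≤ 2 * A := by
    rw [hA, hΔ, Finset.mul_sum]; exact Finset.sum_le_sum fun x _ => hd2 x
  have hAk : A ≤ k * r := by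
    have e1 : A ≤ ∑ x : V, (k : ℤ) := by rw [hA]; exact Finset.sum_le_sum fun x _ => hak x
    rw [Finset.sum_const, Finset.card_univ, nsmul_eq_mul, ← hr] at e1
    linarith
  have hr6 : 6 ≤ r := by rw [hr]; exact_mod_cast h6
  have hre : Even r := by rw [hr]; exact_mod_cast hev
  have hk' : (1000 : ℤ) ≤ k := by exact_mod_cast hk
  have hρt : ∑ y, ∑ x, W y x = k * r - Δ := by
    rw [Finset.sum_congr rfl fun y _ => hρ y, Finset.sum_sub_distrib, Finset.sum_const,
      Finset.card_univ, nsmul_eq_mul, ← hr, ← hΔ]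
    ring
  rw [← hr, ← hA, ← hW]
  rcases lt_or_ge (4 * r) A with hc | hc
  · -- the first case
    obtain ⟨j, hj⟩ := hev
    have hrj : r = 2 * (j : ℤ) := by rw [hr, hj]; push_cast; ring
    obtain ⟨σ', g1, g2, g3⟩ := hB V W hs h0 (by omega) 0 j (fun _ => 1) (fun _ => Or.inl rfl) (by
      rw [Finset.sum_const, Finset.card_univ, nsmul_eq_mul, mul_one, hj]
      push_cast
      ring)
    refine ⟨σ', g1, by rw [g2]; rfl, ?_⟩
    have hF1 : F W univ (fun _ => 1) = -(k * r - Δ) := by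
      rw [← hρt]
      unfold F
      simp
    have hP1 : ∑ y, (1 : ℤ) * ∑ x, W y x = k * r - Δ := by
      rw [← hρt]
      simp
    rw [hF1, hP1, hρt, ← hr, ← hrj] at g3
    push_cast at g3
    have g4 : 4 * r * (k * r - Δ) ≤ 4 * r * ((r - 1) * F W univ σ') := by
      nlinarith
    have g5 : k * r - Δ ≤ (r - 1) * F W univ σ' := le_of_mul_le_mul_left g4 (by linarith)
    exact case1 hr6 hre hk' hA0 hΔ2 hc hAk g5
  · -- the second case
    obtain ⟨σ₀, f1, f2⟩ := hR2 V k H a h hk hR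
    rw [← hW, ← hr, ← hA] at f2
    -- a global change of sign
    obtain ⟨σ, hσ, hσF, hσ0⟩ : ∃ σ : V → ℤ, Sg σ ∧ (30 * ((k : ℤ) + 1) + 125) * r ≤
        30 * ((k : ℤ) + 1) * F W univ σ + 4 * ((k : ℤ) + 1) * A ∧ 0 ≤ ∑ v, σ v := by
      rcases le_total 0 (∑ v, σ₀ v) with hp | hp
      · exact ⟨σ₀, f1, f2, hp⟩
      · refine ⟨fun v => -σ₀ v, ?_, by rw [F_neg]; exact f2, ?_⟩
        · intro v
          rcases f1 v with e | e <;> simp [e]
        · rw [Finset.sum_neg_distrib]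
          linarith
    have hse := sum_even hσ hev
    obtain ⟨j', hj'⟩ := hse
    have hj0 : 0 ≤ j' := by omega
    obtain ⟨j, rfl⟩ := Int.eq_ofNat_of_zero_le hj0
    rcases Nat.eq_zero_or_pos j with hz | hpos
    · refine ⟨σ, hσ, by rw [hj', hz]; simp, ?_⟩
      have e0 : 0 ≤ ((k : ℤ) + 1) * A := mul_nonneg (by linarith) hA0
      linarith
    · obtain ⟨σ', g1, g2, g3⟩ := hB V W hs h0 (by omega) 0 j σ hσ (by
        rw [hj']
        push_cast
        ring)
      refine ⟨σ', g1, by rw [g2]; rfl, ?_⟩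
      have hP : (k : ℤ) * (2 * j) - Δ ≤ ∑ y, σ y * ∑ x, W y x := by
        have e1 : ∑ y, σ y * ∑ x, W y x = k * ∑ y, σ y - ∑ y, σ y * dd y := by
          rw [Finset.mul_sum, ← Finset.sum_sub_distrib]
          refine Finset.sum_congr rfl fun y _ => ?_
          rw [hρ]
          ring
        have e2 : ∑ y, σ y * dd y ≤ Δ := by
          rw [hΔ]
          refine Finset.sum_le_sum fun y _ => ?_
          have e3 : 0 ≤ dd y := le_trans (Int.natCast_nonneg _) (hd1 y)
          rcases hσ y with e | e <;> rw [e] <;> linarith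
        rw [e1, hj']
        linarith
      rw [hρt, ← hr] at g3
      push_cast at g3
      have hres := case2 (r := (r : ℝ)) (D := 2 * (j : ℝ)) (k := (k : ℝ)) (A := (A : ℝ))
        (Δ := (Δ : ℝ)) (F := ((F W univ σ : ℤ) : ℝ)) (F' := ((F W univ σ' : ℤ) : ℝ))
        (P := ((∑ y, σ y * ∑ x, W y x : ℤ) : ℝ)) (by exact_mod_cast hr6)
        (by
          have : (1 : ℝ) ≤ j := by exact_mod_cast hpos
          linarith)
        (by exact_mod_cast hk) (by exact_mod_cast hA0) (by exact_mod_cast hΔ1)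
        (by exact_mod_cast hΔ2) (by exact_mod_cast hc)
        (by exact_mod_cast hP)
        (by exact_mod_cast hσF)
        (by
          have g4 : r * (r - 2) * F W univ σ + 2 * (j : ℤ) *
              (2 * r * (∑ y, σ y * ∑ x, W y x) - (2 * (j : ℤ) - 2) * (k * r - Δ)) ≤
              (r + 2 * (j : ℤ)) * (r + 2 * (j : ℤ) - 2) * F W univ σ' := by
            have e1 : (r + 0) * (r + 0 - 2) = r * (r - 2) := by ring
            have e2 : (r + 0 + 2 * (j : ℤ)) = r + 2 * j := by ring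
            rw [e1, e2] at g3
            have e3 : 2 * (r + 0) = 2 * r := by ring
            rw [e3] at g3
            exact g3
          exact_mod_cast g4)
      exact_mod_cast hres

end Pool.Agent.L0h91.JB
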